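import Mathlib
import Pool.Agent.Y859.SI.Fin

set_option autoImplicit false

/-!
# Even almost prime congruent numbers in short intervals and in residue classes to large moduli

Let `2/3 < θ ≤ 17/24`.  There is `R` such that for all large `X`, every modulus
`M ≤ X ^ ((θ - 2/3)/14)` and every residue class `a` modulo `M` which contains an even squarefree
number, the interval `[X, X + X ^ θ]` contains at least `X ^ (1/12)` even squarefree congruent
numbers `n` of the class with `n = (a, M) m`, where `m` has at most `R` prime factors, the odd ones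
larger than `X ^ (1 / R)`.

Proof.  The numbers are `n = b (x ^ 2 - Q b) (x ^ 2 + Q b)` with a square `Q` divisible by `8 M` and
by all primes up to `64`, `x ≡ 1` modulo `Q` the first admissible integer and `b` in a window of
`X ^ (1/12 + c)` consecutive members of a class modulo `Q` near the maximum `x ^ 2 / (√3 Q)` (the
construction of helper827 and helper999).  The class of `b` is chosen even and prime to the primes
up to `64` outside `2 M`.  The fundamental lemma of the sieve removes the `b` for which one of the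
three linear forms has a prime factor `p ≤ X ^ (1/(12 K))` outside `Q`; the squares of the larger
primes are removed by second differences, with a power saving.
-/

namespace Pool.Agent.Results.MP_f126a2_nt.AlmostPrimeIntervals

/-- `n` is the area of a right triangle with rational sides -/
def IsCongruent (n : ℕ) : Prop :=
  ∃ a b c : ℚ, 0 < a ∧ 0 < b ∧ 0 < c ∧ a ^ 2 + b ^ 2 = c ^ 2 ∧ (n : ℚ) = a * b / 2

/-- `m` has at most `R` prime factors (with multiplicity), the odd ones larger than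
`X ^ (1 / R)` -/
def AlmostPrime (R : ℕ) (X : ℝ) (m : ℕ) : Prop :=
  m.primeFactorsList.length ≤ R ∧
    ∀ p : ℕ, p.Prime → p ≠ 2 → p ∣ m → X ^ (1 / (R : ℝ)) < (p : ℝ)

/-- **Even almost prime congruent numbers in short intervals, in all classes to moduli up to a
power.**  Let `2/3 < θ ≤ 17/24`.  There are `R` and `X₀` such that for all real `X ≥ X₀`, all moduli
`1 ≤ M ≤ X ^ ((θ - 2/3)/14)` and all `a` whose residue class modulo `M` contains an even squarefree
number, at least `X ^ (1/12)` integers `n` in `[X, X + X ^ θ]` are even squarefree congruent numbers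
with `n ≡ a` modulo `M` and `n = (a, M) m`, where `m` has at most `R` prime factors, the odd ones
larger than `X ^ (1 / R)`. -/
theorem result (θ : ℝ) (hθ : 2 / 3 < θ) (hθ1 : θ ≤ 17 / 24) :
    ∃ R : ℕ, 1 ≤ R ∧ ∃ X₀ : ℝ, ∀ X : ℝ, X₀ ≤ X →
      ∀ M : ℕ, 0 < M → (M : ℝ) ≤ X ^ ((θ - 2 / 3) / 14) →
      ∀ a : ℕ, (∃ k : ℕ, Squarefree k ∧ Even k ∧ k ≡ a [MOD M]) →
        X ^ (1 / 12 : ℝ) ≤ ({n : ℕ | X ≤ n ∧ (n : ℝ) ≤ X + X ^ θ ∧ Squarefree n ∧ Even n ∧
          n ≡ a [MOD M] ∧ IsCongruent n ∧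
          ∃ m, n = Nat.gcd a M * m ∧ AlmostPrime R X m}.ncard : ℝ) := by
  obtain ⟨R, hR, X₀, h⟩ := Pool.Agent.Y859.SI.main θ hθ hθ1
  refine ⟨R, hR, X₀, ?_⟩
  intro X hX M hM0 hMX a ⟨k, hk, hko, hka⟩
  refine (h X hX M hM0 hMX k hk).trans ?_
  have hfin : {n : ℕ | X ≤ n ∧ (n : ℝ) ≤ X + X ^ θ ∧ Squarefree n ∧ Even n ∧
      n ≡ a [MOD M] ∧ IsCongruent n ∧
      ∃ m, n = Nat.gcd a M * m ∧ AlmostPrime R X m}.Finite := by
    apply (Set.finite_Iic ⌊X + X ^ θ⌋₊).subset
    intro n hn
    exact Nat.le_floor hn.2.1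
  have hsub : {n : ℕ | X ≤ n ∧ (n : ℝ) ≤ X + X ^ θ ∧ Squarefree n ∧
      n ≡ k [MOD 8 * M] ∧ Pool.Agent.Y859.SI.Cong n ∧
      ∃ m, n = Nat.gcd k M * m ∧ Pool.Agent.Y859.SI.Few R X m} ⊆
      {n : ℕ | X ≤ n ∧ (n : ℝ) ≤ X + X ^ θ ∧ Squarefree n ∧ Even n ∧
        n ≡ a [MOD M] ∧ IsCongruent n ∧ ∃ m, n = Nat.gcd a M * m ∧ AlmostPrime R X m} := by
    intro n hn
    obtain ⟨h1, h2, h3, h4, h5, m, h6, h7, h8⟩ := hn
    have heven : Even n := by
      have h9 : n ≡ k [MOD 2] := h4.of_dvd ⟨4 * M, by ring⟩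
      rw [Nat.even_iff] at hko ⊢
      have h10 : n % 2 = k % 2 := h9
      omega
    have hg : Nat.gcd k M = Nat.gcd a M := hka.gcd_eq
    rw [hg] at h6
    exact ⟨h1, h2, h3, heven, (h4.of_dvd (Dvd.intro_left 8 rfl)).trans hka, h5, m, h6, h7, h8⟩
  exact_mod_cast Set.ncard_le_ncard hsub hfin

end Pool.Agent.Results.MP_f126a2_nt.AlmostPrimeIntervals
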