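import Pool.Agent.Y675.LN.Forms

/-!
MP_f126a2_nt (converse of Tunnell's criterion for even `n`): even squarefree congruent numbers in
residue classes, uniformly for moduli up to `X ^ (1/4 - ε)`.
-/

set_option autoImplicit false

namespace Pool.Agent.Results.MP_f126a2_nt.EvenLinnik

/-- `n` is the area of a right triangle with rational sides -/
def IsCongruent (n : ℕ) : Prop :=
  ∃ a b c : ℚ, 0 < a ∧ 0 < b ∧ 0 < c ∧ a ^ 2 + b ^ 2 = c ^ 2 ∧ (n : ℚ) = a * b / 2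

/-- Let `ε > 0`.  There are `C > 0` and `X₀` such that for all moduli `q ≥ 1` and all `a` whose
residue class modulo `q` contains an even squarefree number `k`: some even squarefree congruent
`n ≤ C q ^ (4 + ε)` satisfies `n ≡ a` modulo `q`, and it may be chosen `≡ k` modulo `16`; and for
all `X ≥ X₀` with `X ≥ q ^ (4 + ε)` at least `X ^ (1/2 - ε) / q` even squarefree congruent numbers
`n ≤ X` satisfy `n ≡ a` modulo `q` and `n ≡ k` modulo `16`. -/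
theorem result (ε : ℝ) (hε : 0 < ε) :
    ∃ C : ℝ, 0 < C ∧ ∃ X₀ : ℝ, ∀ q : ℕ, 1 ≤ q → ∀ a k : ℕ, Squarefree k → Even k →
      k ≡ a [MOD q] →
      (∃ n : ℕ, (n : ℝ) ≤ C * (q : ℝ) ^ (4 + ε) ∧ Squarefree n ∧ Even n ∧ n ≡ a [MOD q] ∧
        n ≡ k [MOD 16] ∧ IsCongruent n) ∧
      (∀ X : ℝ, X₀ ≤ X → (q : ℝ) ^ (4 + ε) ≤ X → X ^ (1 / 2 - ε) / q ≤
        ({n : ℕ | (n : ℝ) ≤ X ∧ Squarefree n ∧ Even n ∧ n ≡ a [MOD q] ∧ n ≡ k [MOD 16] ∧
          IsCongruent n}.ncard : ℝ)) := by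
  obtain ⟨C, hC, h1⟩ := Pool.Agent.Y675.LN.least_d 16 (by norm_num) ε hε
  obtain ⟨X₀, h2⟩ := Pool.Agent.Y675.LN.main_d 16 (by norm_num) ε hε
  have key : ∀ q a k n : ℕ, Even k → k ≡ a [MOD q] → n ≡ k [MOD 16 * q] →
      Even n ∧ n ≡ a [MOD q] ∧ n ≡ k [MOD 16] := by
    intro q a k n hk hka hn
    have h8 : n ≡ k [MOD 16] := hn.of_dvd (Dvd.intro _ rfl)
    have hq : n ≡ k [MOD q] := hn.of_dvd (Dvd.intro_left _ rfl)
    refine ⟨?_, hq.trans hka, h8⟩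
    rw [Nat.even_iff] at hk ⊢
    have h9 : n % 16 = k % 16 := h8
    omega
  refine ⟨C, hC, X₀, fun q hq a k hk hko hka => ⟨?_, ?_⟩⟩
  · obtain ⟨n, g1, g2, g3, g4⟩ := h1 q hq k hk
    obtain ⟨g5, g6, g7⟩ := key q a k n hko hka g3
    exact ⟨n, g1, g2, g5, g6, g7, g4⟩
  · intro X hX hqX
    refine (h2 X hX q hq hqX k hk).trans ?_
    have hfin : {n : ℕ | (n : ℝ) ≤ X ∧ Squarefree n ∧ Even n ∧ n ≡ a [MOD q] ∧ n ≡ k [MOD 16] ∧
        IsCongruent n}.Finite := by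
      apply (Set.finite_Iic ⌊X⌋₊).subset
      intro n hn
      exact Nat.le_floor hn.1
    have := Set.ncard_le_ncard (s := {n : ℕ | (n : ℝ) ≤ X ∧ Squarefree n ∧
      n ≡ k [MOD 16 * q] ∧ Pool.Agent.Y675.LN.IsCongruent n}) (t := {n : ℕ | (n : ℝ) ≤ X ∧
        Squarefree n ∧ Even n ∧ n ≡ a [MOD q] ∧ n ≡ k [MOD 16] ∧ IsCongruent n}) (fun n hn => by
        obtain ⟨g5, g6, g7⟩ := key q a k n hko hka hn.2.2.1
        exact ⟨hn.1, hn.2.1, g5, g6, g7, hn.2.2.2⟩) hfin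
    exact_mod_cast this

end Pool.Agent.Results.MP_f126a2_nt.EvenLinnik
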