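import Pool.Agent.Y675.TS.Fin4

/-!
MP_f126a2_nt (converse of Tunnell's criterion, even squarefree integers): even squarefree congruent
numbers with few prime factors in all residue classes and in short intervals.  Proof: for all
`B, r, s` the number `B (s ^ 4 + 6 B r ^ 2 s ^ 2 + B ^ 2 r ^ 4)` is the area of a rational right
triangle; a weighted linear sieve in shifted boxes (level of distribution from complete exponential
sums).  (helper675)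
-/

set_option autoImplicit false

namespace Pool.Agent.Results.MP_f126a2_nt.EvenResidueClasses

/-- `n` is a congruent number -/
def IsCongruent (n : ℕ) : Prop :=
  ∃ a b c : ℚ, 0 < a ∧ 0 < b ∧ 0 < c ∧ a ^ 2 + b ^ 2 = c ^ 2 ∧ (n : ℚ) = a * b / 2

/-- Let `35 / 36 < θ ≤ 1`. For every even squarefree `B` and `m ≥ 1` the interval `[X, X + X ^ θ]`
contains at least `c X ^ (2 θ - 3 / 2) / log X` even squarefree congruent multiples `n ≡ B mod m` of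
`B` for which `n / B` has at most three prime factors, all at least `X ^ (1 / 10)`; and for all even
`a`, `m` with `gcd(a, m)` squarefree it contains at least so many (even) squarefree congruent
`n ≡ a mod m` with at most `ω(gcd(a, m)) + 4` prime factors. -/
theorem result (θ : ℝ) (hθ : 35 / 36 < θ) (hθ1 : θ ≤ 1) (m : ℕ) (hm : 1 ≤ m) :
    (∀ B : ℕ, Even B → Squarefree B → ∃ c X₀ : ℝ, 0 < c ∧ ∀ X : ℝ, X₀ ≤ X →
      c * X ^ (2 * θ - 3 / 2) / Real.log X ≤ (({n : ℕ | X ≤ n ∧ (n : ℝ) ≤ X + X ^ θ ∧ Even n ∧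
        n ≡ B [MOD m] ∧ B ∣ n ∧ Squarefree n ∧ IsCongruent n ∧ (n / B).primeFactors.card ≤ 3 ∧
        ∀ p : ℕ, p.Prime → p ∣ n / B → X ^ (1 / 10 : ℝ) ≤ p ∧ (p % 8 = 1 ∨ p % 8 = 7) ∧
          IsSquare (-(B : ZMod p))}.ncard : ℕ) : ℝ)) ∧
    (∀ a : ℕ, Even a → Even m → Squarefree (Nat.gcd a m) → ∃ c X₀ : ℝ, 0 < c ∧ ∀ X : ℝ, X₀ ≤ X →
      c * X ^ (2 * θ - 3 / 2) / Real.log X ≤ (({n : ℕ | X ≤ n ∧ (n : ℝ) ≤ X + X ^ θ ∧ Even n ∧
        n ≡ a [MOD m] ∧ Squarefree n ∧ IsCongruent n ∧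
        n.primeFactors.card ≤ (Nat.gcd a m).primeFactors.card + 4}.ncard : ℕ) : ℝ)) := by
  constructor
  · intro B hBo hB
    obtain ⟨c, X₀, hc, h⟩ := Pool.Agent.Y675.TS.main' B m hB hm θ hθ hθ1
    refine ⟨c, X₀, hc, fun X hX => (h X hX).trans ?_⟩
    have hfin : {n : ℕ | X ≤ n ∧ (n : ℝ) ≤ X + X ^ θ ∧ Even n ∧
        n ≡ B [MOD m] ∧ B ∣ n ∧ Squarefree n ∧ IsCongruent n ∧ (n / B).primeFactors.card ≤ 3 ∧
        ∀ p : ℕ, p.Prime → p ∣ n / B → X ^ (1 / 10 : ℝ) ≤ p ∧ (p % 8 = 1 ∨ p % 8 = 7) ∧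
          IsSquare (-(B : ZMod p))}.Finite := by
      apply (Set.finite_Iic ⌊X + X ^ θ⌋₊).subset
      intro d hd
      exact Nat.le_floor hd.2.1
    have h1 := Set.ncard_le_ncard (s := {d : ℕ | X ≤ d ∧ (d : ℝ) ≤ X + X ^ θ ∧
        d ≡ B [MOD m] ∧ B ∣ d ∧ Squarefree d ∧
        Pool.Agent.Y675.TC.Cong d ∧ (d / B).primeFactors.card ≤ 3 ∧ (d / B).Coprime (2 * B * m) ∧
        ∀ p : ℕ, p.Prime → p ∣ d / B → X ^ (1 / 10 : ℝ) ≤ p ∧ (p % 8 = 1 ∨ p % 8 = 7) ∧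
          IsSquare (((-(B : ℤ) : ℤ)) : ZMod p)}) (by
      rintro d ⟨h1, h2, h3, h4, h5, h6, h7, h8, h9⟩
      obtain ⟨x, y, z, k1, k2, k3, k4, k5⟩ := h6
      refine ⟨h1, h2, ?_, h3, h4, h5, ⟨x, y, z, k1, k2, k3, k4, k5.symm⟩, h7,
        fun p hp hpd => ?_⟩
      · exact (even_iff_two_dvd.2 ((even_iff_two_dvd.1 hBo).trans h4))
      · obtain ⟨g1, g2, g3⟩ := h9 p hp hpd
        refine ⟨g1, g2, ?_⟩
        have e : (((-(B : ℤ) : ℤ)) : ZMod p) = -(B : ZMod p) := by push_cast; rfl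
        rwa [e] at g3) hfin
    exact_mod_cast h1
  · intro a ha hme hg
    obtain ⟨c, X₀, hc, h⟩ := Pool.Agent.Y675.TS.cls a m hm hg θ hθ hθ1
    refine ⟨c, X₀, hc, fun X hX => (h X hX).trans ?_⟩
    have hfin : {n : ℕ | X ≤ n ∧ (n : ℝ) ≤ X + X ^ θ ∧ Even n ∧
        n ≡ a [MOD m] ∧ Squarefree n ∧ IsCongruent n ∧
        n.primeFactors.card ≤ (Nat.gcd a m).primeFactors.card + 4}.Finite := by
      apply (Set.finite_Iic ⌊X + X ^ θ⌋₊).subset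
      intro d hd
      exact Nat.le_floor hd.2.1
    have h1 := Set.ncard_le_ncard (s := {d : ℕ | X ≤ d ∧ (d : ℝ) ≤ X + X ^ θ ∧
        d ≡ a [MOD m] ∧ Squarefree d ∧ Pool.Agent.Y675.TC.Cong d ∧
        d.primeFactors.card ≤ (Nat.gcd a m).primeFactors.card + 4}) (by
      rintro d ⟨h1, h2, h3, h4, h5, h6⟩
      obtain ⟨x, y, z, k1, k2, k3, k4, k5⟩ := h5
      refine ⟨h1, h2, ?_, h3, h4, ⟨x, y, z, k1, k2, k3, k4, k5.symm⟩, h6⟩
      have h7 : d ≡ a [MOD 2] := h3.of_dvd (even_iff_two_dvd.1 hme)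
      rw [Nat.even_iff] at ha ⊢
      rw [Nat.ModEq] at h7
      omega) hfin
    exact_mod_cast h1

end Pool.Agent.Results.MP_f126a2_nt.EvenResidueClasses
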