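import Mathlib
import Pool.Agent.Y859.MU.Fin

set_option autoImplicit false

/-!
# Even squarefree congruent numbers with a prescribed divisor

Every squarefree `B ≤ X ^ (1/2 - ε)` divides at least `X ^ (1/2 - ε) / B` even squarefree congruent
numbers `n ≤ X` in each of the classes `2, 6, 10, 14` modulo `16`, the quotient `n / B` being
almost prime up to the factor `2`.

Proof.  Let `B'` be the odd part of `B`.  The pigeonhole principle gives two primes `a ≡ b` modulo
`8` of size `X ^ δ` with the same quadratic character modulo all prime factors of `B'`.  Then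
`a s ^ 2 = b t ^ 2` modulo `B'` and `a s ^ 2 = b t ^ 2 (1 + 16 u)` modulo `128` define a lattice of
index `128 B'` in the plane, on which `F = (a s ^ 2 - b t ^ 2) / (16 B')` and
`G = (a s ^ 2 + b t ^ 2) / 2` are odd integers and `2 a b B' F G` is a congruent number up to
squares.  A reduced basis, a uniform sieve for two quadratic polynomials on a line of the lattice,
and the replacement of `B` by `B q` with primes `q` give the theorem.
-/

namespace Pool.Agent.Results.MP_f126a2_nt.EveryDivisor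

/-- `n` is the area of a right triangle with rational sides -/
def IsCongruent (n : ℕ) : Prop :=
  ∃ a b c : ℚ, 0 < a ∧ 0 < b ∧ 0 < c ∧ a ^ 2 + b ^ 2 = c ^ 2 ∧ (n : ℚ) = a * b / 2

/-- `m` has at most `R` prime factors (with multiplicity), the odd ones larger than
`X ^ (1 / R)` -/
def AlmostPrime (R X m : ℕ) : Prop :=
  m.primeFactorsList.length ≤ R ∧
    ∀ p : ℕ, p.Prime → p ≠ 2 → p ∣ m → (X : ℝ) ^ (1 / (R : ℝ)) < (p : ℝ)

/-- **Every squarefree `B ≤ X ^ (1/2 - ε)` divides many even squarefree congruent numbers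
`n ≤ X`.**  Let `0 < ε ≤ 1/2`.  There are `R` and `X₀` such that for all `X ≥ X₀`, all squarefree
`B ≤ X ^ (1/2 - ε)` (odd or even) and every `r < 16` with `r ≡ 2` modulo `4` at least
`X ^ (1/2 - ε) / B` squarefree congruent numbers `n ≤ X` satisfy `n ≡ r` modulo `16` and `n = B m`,
where `m` has at most `R` prime factors, the odd ones larger than `X ^ (1 / R)`. -/
theorem result (ε : ℝ) (hε : 0 < ε) (hε1 : ε ≤ 1 / 2) :
    ∃ R X₀ : ℕ, 1 ≤ R ∧ ∀ X : ℕ, X₀ ≤ X → ∀ B : ℕ, Squarefree B →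
      (B : ℝ) ≤ (X : ℝ) ^ (1 / 2 - ε) → ∀ r : ℕ, r % 4 = 2 → r < 16 →
        (X : ℝ) ^ (1 / 2 - ε) / B ≤
          ({n : ℕ | n ≤ X ∧ n % 16 = r ∧ Squarefree n ∧ IsCongruent n ∧
            ∃ m, n = B * m ∧ AlmostPrime R X m}.ncard : ℝ) := by
  obtain ⟨R, X₀, hR, h⟩ := Pool.Agent.Y859.MU.main ε hε hε1
  refine ⟨R, X₀, hR, ?_⟩
  intro X hX B hBsq hBX r hr4 hr16
  refine ((h X hX B hBsq hBX).2 r hr4 hr16).trans ?_
  have hfin : {n : ℕ | n ≤ X ∧ n % 16 = r ∧ Squarefree n ∧ IsCongruent n ∧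
      ∃ m, n = B * m ∧ AlmostPrime R X m}.Finite :=
    (Set.finite_Iic X).subset fun n hn => hn.1
  have := Set.ncard_le_ncard (s := {n : ℕ | n ≤ X ∧ n % 16 = r ∧ Squarefree n ∧
    Pool.Agent.Y859.SP.Cg.IsCong n ∧ ∃ m, n = B * m ∧ Pool.Agent.Y859.MU.Few R X m})
    (t := {n : ℕ | n ≤ X ∧ n % 16 = r ∧ Squarefree n ∧ IsCongruent n ∧
      ∃ m, n = B * m ∧ AlmostPrime R X m}) (fun n hn => by
      obtain ⟨g1, g2, g3, ⟨a, b, c, ha, hb, hc, e1, e2⟩, m, g5, g6⟩ := hn
      exact ⟨g1, g2, g3, ⟨a, b, c, ha, hb, hc, e1, e2.symm⟩, m, g5, g6.1, g6.2⟩) hfin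
  exact_mod_cast this

end Pool.Agent.Results.MP_f126a2_nt.EveryDivisor
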